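import Pool.Agent.W95.BK.Stm

/-!
BK-COMB: combinatorics of discs in an ultrametric field.
-/

set_option autoImplicit false

open Finset

namespace Pool.Agent.W140.BK
open Pool.Agent.W95.BK

universe u

section
variable {K : Type u} [NontriviallyNormedField K] [IsUltrametricDist K]

theorem um (x y z : K) : ‖x - z‖ ≤ max ‖x - y‖ ‖y - z‖ := by
  have := dist_triangle_max x y z
  simpa only [dist_eq_norm] using this

omit [IsUltrametricDist K] in
theorem exists_reps (ρ : ℝ) (hρ : 0 < ρ) (C : Finset K) :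
    ∃ Z : Finset K, Z ⊆ C ∧ (∀ z ∈ Z, ∀ z' ∈ Z, z ≠ z' → ρ ≤ ‖z - z'‖) ∧
      ∀ c ∈ C, ∃ z ∈ Z, ‖c - z‖ < ρ := by
  classical
  induction C using Finset.induction_on with
  | empty => exact ⟨∅, Finset.Subset.refl _, by simp, by simp⟩
  | insert c C hc ih =>
    obtain ⟨Z, hZ1, hZ2, hZ3⟩ := ih
    by_cases h : ∃ z ∈ Z, ‖c - z‖ < ρ
    · refine ⟨Z, hZ1.trans (subset_insert _ _), hZ2, ?_⟩
      intro x hx
      rw [mem_insert] at hx
      rcases hx with rfl | hx
      · exact h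
      · exact hZ3 x hx
    · push Not at h
      refine ⟨insert c Z, insert_subset_insert _ hZ1, ?_, ?_⟩
      · intro z hz z' hz' hne
        rw [mem_insert] at hz hz'
        rcases hz with rfl | hz <;> rcases hz' with rfl | hz'
        · exact absurd rfl hne
        · exact h z' hz'
        · rw [norm_sub_rev]; exact h z hz
        · exact hZ2 z hz z' hz' hne
      · intro x hx
        rw [mem_insert] at hx
        rcases hx with rfl | hx
        · exact ⟨x, mem_insert_self _ _, by simpa using hρ⟩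
        · obtain ⟨z, hz, hz2⟩ := hZ3 x hx
          exact ⟨z, mem_insert_of_mem hz, hz2⟩

theorem comb_aux (N : K → ℝ → ℕ)
    (H1 : ∀ a a' r, ‖a - a'‖ < r → N a r = N a' r)
    (H2 : ∀ a r r', 0 < r → r ≤ r' → N a r ≤ N a r')
    (H3 : ∀ a r r', 0 < r → r < r' → (∃ c : K, ‖c‖ = r) → ∀ Z : Finset K, (∀ z ∈ Z, ‖z - a‖ ≤ r) →
      (∀ z ∈ Z, ∀ z' ∈ Z, z ≠ z' → r ≤ ‖z - z'‖) → ∑ z ∈ Z, N z r ≤ N a r')
    (w : K × ℝ → ℕ) :
    ∀ n : ℕ, ∀ I J : Finset (K × ℝ), I.card + J.card = n →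
    (∀ p ∈ I, 0 < p.2 ∧ ∃ c : K, ‖c‖ = p.2) →
    (∀ p ∈ I, ∀ r', p.2 < r' → ∀ Z : Finset K, (∀ z ∈ Z, ‖z - p.1‖ ≤ p.2) →
      (∀ z ∈ Z, ∀ z' ∈ Z, z ≠ z' → p.2 ≤ ‖z - z'‖) → ∑ z ∈ Z, N z p.2 + w p ≤ N p.1 r') →
    (∀ p ∈ I, ∀ q ∈ I, p ≠ q → ¬ (p.2 = q.2 ∧ ‖p.1 - q.1‖ ≤ p.2)) →
    (∀ p ∈ J, 0 < p.2) →
    (∀ p ∈ J, ∀ q ∈ J, p ≠ q → max p.2 q.2 ≤ ‖p.1 - q.1‖) →
    (∀ p ∈ I, ∀ q ∈ J, q.2 ≤ max ‖p.1 - q.1‖ p.2) →
    ∀ (a : K) (r : ℝ), (∀ p ∈ I, ‖p.1 - a‖ < r ∧ p.2 < r) → (∀ p ∈ J, ‖p.1 - a‖ < r ∧ p.2 ≤ r) →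
    ∑ p ∈ I, w p + ∑ p ∈ J, N p.1 p.2 ≤ N a r := by
  classical
  intro n
  induction n using Nat.strong_induction_on with
  | _ n ih =>
  intro I J hn hI hIZ hII hJ hJJ hIJ a r hIa hJa
  by_cases hsmall : I = ∅ ∧ J.card ≤ 1
  · obtain ⟨hI0, hJ1⟩ := hsmall
    subst hI0
    rw [sum_empty, zero_add]
    rcases Finset.card_le_one_iff_subset_singleton.mp hJ1 with ⟨q, hq⟩
    rcases Finset.subset_singleton_iff.mp hq with h | h
    · rw [h, sum_empty]; exact Nat.zero_le _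
    · rw [h, sum_singleton]
      have hqJ : q ∈ J := by rw [h]; exact mem_singleton_self q
      obtain ⟨h1, h2⟩ := hJa q hqJ
      rw [← H1 q.1 a r h1]
      exact H2 q.1 q.2 r (hJ q hqJ) h2
  -- main case
  set C : Finset K := I.image Prod.fst ∪ J.image Prod.fst with hC
  have hmemC : ∀ c ∈ C, (∃ p ∈ I, p.1 = c) ∨ ∃ q ∈ J, q.1 = c := by
    intro c hc
    rw [hC, mem_union, mem_image, mem_image] at hc
    exact hc
  have hIC : ∀ p ∈ I, p.1 ∈ C := fun p hp => mem_union_left _ (mem_image_of_mem _ hp)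
  have hJC : ∀ p ∈ J, p.1 ∈ C := fun p hp => mem_union_right _ (mem_image_of_mem _ hp)
  have hCr : ∀ c ∈ C, ‖c - a‖ < r := by
    intro c hc
    rcases hmemC c hc with ⟨p, hp, rfl⟩ | ⟨p, hp, rfl⟩
    · exact (hIa p hp).1
    · exact (hJa p hp).1
  set R : Finset ℝ := ((C ×ˢ C).image fun x => ‖x.1 - x.2‖) ∪ I.image Prod.snd with hR
  have hCne : C.Nonempty := by
    by_contra h
    rw [not_nonempty_iff_eq_empty] at h
    apply hsmall
    constructor
    · rw [Finset.eq_empty_iff_forall_notMem]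
      intro p hp
      have := hIC p hp
      rw [h] at this
      exact absurd this (notMem_empty _)
    · have : J = ∅ := by
        rw [Finset.eq_empty_iff_forall_notMem]
        intro p hp
        have := hJC p hp
        rw [h] at this
        exact absurd this (notMem_empty _)
      rw [this]; simp
  obtain ⟨a0, ha0⟩ := hCne
  have hRne : R.Nonempty := by
    refine ⟨‖a0 - a0‖, mem_union_left _ ?_⟩
    exact mem_image_of_mem (fun x : K × K => ‖x.1 - x.2‖) (mk_mem_product ha0 ha0)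
  set ρ : ℝ := R.max' hRne with hρ
  have hρdist : ∀ c ∈ C, ∀ c' ∈ C, ‖c - c'‖ ≤ ρ := by
    intro c hc c' hc'
    apply le_max'
    exact mem_union_left _ (mem_image_of_mem (fun x : K × K => ‖x.1 - x.2‖) (mk_mem_product hc hc'))
  have hρI : ∀ p ∈ I, p.2 ≤ ρ := fun p hp => le_max' _ _ (mem_union_right _ (mem_image_of_mem _ hp))
  have hρmem : (∃ c ∈ C, ∃ c' ∈ C, ‖c - c'‖ = ρ) ∨ ∃ p ∈ I, p.2 = ρ := by
    have h := max'_mem R hRne
    rw [← hρ, hR, mem_union, mem_image, mem_image] at h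
    rcases h with ⟨x, hx, hx2⟩ | h
    · rw [mem_product] at hx
      exact Or.inl ⟨x.1, hx.1, x.2, hx.2, hx2⟩
    · exact Or.inr h
  -- two items
  have htwo : I.Nonempty ∨ ∃ q ∈ J, ∃ q' ∈ J, q ≠ q' := by
    by_cases hIe : I = ∅
    · right
      have h1 : 1 < J.card := by
        by_contra h
        exact hsmall ⟨hIe, by omega⟩
      obtain ⟨q, hq, q', hq', hne⟩ := Finset.one_lt_card.mp h1
      exact ⟨q, hq, q', hq', hne⟩
    · left; exact nonempty_iff_ne_empty.mpr hIe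
  have hρ0 : 0 < ρ := by
    rcases htwo with ⟨p, hp⟩ | ⟨q, hq, q', hq', hne⟩
    · exact (hI p hp).1.trans_le (hρI p hp)
    · have h1 := hJJ q hq q' hq' hne
      have h2 := hJ q hq
      have h3 := hρdist q.1 (hJC q hq) q'.1 (hJC q' hq')
      exact (h2.trans_le (le_max_left _ _)).trans_le (h1.trans h3)
  have hρr : ρ < r := by
    rcases hρmem with ⟨c, hc, c', hc', h⟩ | ⟨p, hp, h⟩
    · rw [← h]
      refine (um c a c').trans_lt (max_lt (hCr c hc) ?_)
      rw [norm_sub_rev]; exact hCr c' hc'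
    · rw [← h]; exact (hIa p hp).2
  have hρval : ∃ c : K, ‖c‖ = ρ := by
    rcases hρmem with ⟨c, hc, c', hc', h⟩ | ⟨p, hp, h⟩
    · exact ⟨c - c', h⟩
    · rw [← h]; exact (hI p hp).2
  have hρJ : ∀ q ∈ J, q.2 ≤ ρ := by
    intro q hq
    rcases htwo with ⟨p, hp⟩ | ⟨q1, hq1, q2, hq2, hne⟩
    · exact (hIJ p hp q hq).trans (max_le (hρdist p.1 (hIC p hp) q.1 (hJC q hq)) (hρI p hp))
    · obtain ⟨q', hq', hne'⟩ : ∃ q' ∈ J, q ≠ q' := by
        by_cases h : q = q1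
        · exact ⟨q2, hq2, by rw [h]; exact hne⟩
        · exact ⟨q1, hq1, h⟩
      exact (le_max_left _ _).trans ((hJJ q hq q' hq' hne').trans
        (hρdist q.1 (hJC q hq) q'.1 (hJC q' hq')))
  obtain ⟨Z, hZC, hZsep, hZcov⟩ := exists_reps ρ hρ0 C
  have hZcov' : ∀ c : K, ∃ z : K, c ∈ C → z ∈ Z ∧ ‖c - z‖ < ρ := by
    intro c
    by_cases hc : c ∈ C
    · obtain ⟨z, hz, hz2⟩ := hZcov c hc
      exact ⟨z, fun _ => ⟨hz, hz2⟩⟩
    · exact ⟨0, fun h => absurd h hc⟩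
  choose rep hrep using hZcov'
  -- the general step: items of radius less than ρ
  have hstep : ∀ I' : Finset (K × ℝ), I' ⊆ I → (∀ p ∈ I', p.2 < ρ) →
      (∀ z ∈ Z, (I'.filter fun p => rep p.1 = z).card + (J.filter fun p => rep p.1 = z).card < n) →
      ∑ p ∈ I', w p + ∑ p ∈ J, N p.1 p.2 ≤ ∑ z ∈ Z, N z ρ := by
    intro I' hI' hlt hcard
    have h1 : ∑ p ∈ I', w p = ∑ z ∈ Z, ∑ p ∈ I' with rep p.1 = z, w p :=
      (sum_fiberwise_of_maps_to (fun p hp => (hrep p.1 (hIC p (hI' hp))).1) _).symm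
    have h2 : ∑ p ∈ J, N p.1 p.2 = ∑ z ∈ Z, ∑ p ∈ J with rep p.1 = z, N p.1 p.2 :=
      (sum_fiberwise_of_maps_to (fun p hp => (hrep p.1 (hJC p hp)).1) _).symm
    rw [h1, h2, ← sum_add_distrib]
    apply sum_le_sum
    intro z hz
    refine ih _ (hcard z hz) (I'.filter fun p => rep p.1 = z) (J.filter fun p => rep p.1 = z) rfl
      ?_ ?_ ?_ ?_ ?_ ?_ z ρ ?_ ?_
    · intro p hp
      exact hI p (hI' (mem_filter.1 hp).1)
    · intro p hp
      exact hIZ p (hI' (mem_filter.1 hp).1)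
    · intro p hp q hq
      exact hII p (hI' (mem_filter.1 hp).1) q (hI' (mem_filter.1 hq).1)
    · intro p hp
      exact hJ p (mem_filter.1 hp).1
    · intro p hp q hq
      exact hJJ p (mem_filter.1 hp).1 q (mem_filter.1 hq).1
    · intro p hp q hq
      exact hIJ p (hI' (mem_filter.1 hp).1) q (mem_filter.1 hq).1
    · intro p hp
      obtain ⟨hp1, hp2⟩ := mem_filter.1 hp
      refine ⟨?_, hlt p hp1⟩
      have := (hrep p.1 (hIC p (hI' hp1))).2
      rwa [hp2] at this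
    · intro p hp
      obtain ⟨hp1, hp2⟩ := mem_filter.1 hp
      refine ⟨?_, hρJ p hp1⟩
      have := (hrep p.1 (hJC p hp1)).2
      rwa [hp2] at this
  by_cases hp0 : ∃ p ∈ I, p.2 = ρ
  · obtain ⟨p0, hp0, hp0ρ⟩ := hp0
    have h1 := hstep (I.erase p0) (erase_subset _ _) ?_ ?_
    · have h2 := hIZ p0 hp0 r (by rw [hp0ρ]; exact hρr) Z (fun z hz => ?_) (fun z hz z' hz' hne => ?_)
      · rw [hp0ρ, H1 p0.1 a r (hIa p0 hp0).1] at h2
        rw [← add_sum_erase I w hp0]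
        omega
      · rw [hp0ρ]
        exact hρdist z (hZC hz) p0.1 (hIC p0 hp0)
      · rw [hp0ρ]
        exact hZsep z hz z' hz' hne
    · intro p hp
      obtain ⟨hne, hpI⟩ := mem_erase.1 hp
      refine lt_of_le_of_ne (hρI p hpI) fun h => ?_
      refine hII p hpI p0 hp0 hne ⟨by rw [h, hp0ρ], ?_⟩
      rw [h]
      exact hρdist p.1 (hIC p hpI) p0.1 (hIC p0 hp0)
    · intro z hz
      have h1 : ((I.erase p0).filter fun p => rep p.1 = z).card < I.card :=
        (card_le_card (filter_subset _ _)).trans_lt (card_erase_lt_of_mem hp0)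
      have h2 : (J.filter fun p => rep p.1 = z).card ≤ J.card := card_le_card (filter_subset _ _)
      omega
  · have h1 := hstep I (Finset.Subset.refl _) ?_ ?_
    · have h2 := H3 a0 ρ r hρ0 hρr hρval Z (fun z hz => hρdist z (hZC hz) a0 ha0) hZsep
      rw [H1 a0 a r (hCr a0 ha0)] at h2
      exact h1.trans h2
    · intro p hp
      exact lt_of_le_of_ne (hρI p hp) fun h => hp0 ⟨p, hp, h⟩
    · intro z hz
      obtain ⟨c, hc, c', hc', hcc⟩ := hρmem.resolve_right hp0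
      have hmiss : ∃ c ∈ C, rep c ≠ z := by
        by_contra hcon
        push Not at hcon
        have e1 := (hrep c hc).2
        have e2 := (hrep c' hc').2
        rw [hcon c hc] at e1
        rw [hcon c' hc', norm_sub_rev] at e2
        have := (um c z c').trans_lt (max_lt e1 e2)
        rw [hcc] at this
        exact lt_irrefl _ this
      obtain ⟨x, hx, hxz⟩ := hmiss
      have h1 : (I.filter fun p => rep p.1 = z).card ≤ I.card := card_le_card (filter_subset _ _)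
      have h2 : (J.filter fun p => rep p.1 = z).card ≤ J.card := card_le_card (filter_subset _ _)
      rcases hmemC x hx with ⟨p, hp, rfl⟩ | ⟨p, hp, rfl⟩
      · have h3 : (I.filter fun p => rep p.1 = z).card < I.card :=
          card_lt_card (filter_ssubset.2 ⟨p, hp, hxz⟩)
        omega
      · have h3 : (J.filter fun p => rep p.1 = z).card < J.card :=
          card_lt_card (filter_ssubset.2 ⟨p, hp, hxz⟩)
        omega

end

theorem comb : S_COMB.{u} := by
  intro K _ _ N H1 H2 H3 I w hI hIZ hII J hJ hJJ hIJ a r hIa hJa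
  exact comb_aux N H1 H2 H3 w _ I J rfl hI hIZ hII hJ hJJ hIJ a r hIa hJa

end Pool.Agent.W140.BK
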